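import Pool.Agent.H26.AR3

set_option autoImplicit false

namespace Pool.Agent.Results.MP_3ace2b_pr.FreeTwo

open MeasureTheory Pool.Agent.H26.AR

instance : MeasurableSpace (FreeGroup (Fin 2)) := ⊤

def AR (μ : PMF (FreeGroup (Fin 2))) : Prop :=
  ∀ n, 1 ≤ n → ∀ᵐ ζ ∂(Measure.infinitePi fun _ : ℕ => μ.toMeasure),
    Subsemigroup.closure (Set.range fun k => ((List.range (n + k)).map ζ).prod) = ⊤

noncomputable def rho : FreeGroup (Fin 2) →* W := FreeGroup.lift ![wt, wa]

lemma rho_surj : Function.Surjective rho := by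
  rw [← MonoidHom.range_eq_top]
  exact gen_W _ ⟨FreeGroup.of 0, by simp [rho]⟩ ⟨FreeGroup.of 1, by simp [rho]⟩

noncomputable def lf (K : ℕ) : FreeGroup (Fin 2) :=
  if K = 0 then FreeGroup.of 0 else if K = 1 then FreeGroup.of 1 else (rho_surj (psi K)).choose

lemma rho_lf (K : ℕ) : rho (lf K) = psi K := by
  unfold lf
  split_ifs with h0 h1
  · simp [rho, psi, h0]
  · simp [rho, psi, h1]
  · exact (rho_surj (psi K)).choose_spec

theorem result : ∃ μ : PMF (FreeGroup (Fin 2)), (∀ g, μ g⁻¹ = μ g) ∧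
    Subgroup.closure μ.support = ⊤ ∧ ¬ AR μ := by
  let φ : ℕ × Bool → FreeGroup (Fin 2) := fun x => if x.2 then lf x.1 else (lf x.1)⁻¹
  refine ⟨tw.nu.map φ, tw.symm φ fun k b => by cases b <;> simp [φ], ?_, fun h => ?_⟩
  · rw [eq_top_iff, ← FreeGroup.closure_range_of, Tail.supp]
    refine Subgroup.closure_mono ?_
    rintro _ ⟨i, rfl⟩
    fin_cases i
    · exact ⟨(0, true), by simp [φ, lf]⟩
    · exact ⟨(1, true), by simp [φ, lf]⟩
  · refine notARW φ rho (fun x => ?_) (h 1 le_rfl)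
    simp only [φ, psb]
    split_ifs <;> simp [rho_lf]

end Pool.Agent.Results.MP_3ace2b_pr.FreeTwo
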